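import Pool.Agent.H99.CE.Targets

/-!
# crx_modules, row LYA: the sequences of the moments
-/

set_option autoImplicit false

open MeasureTheory ProbabilityTheory Filter Topology
open scoped ENNReal
open Pool.Agent.H95 Pool.Agent.H95.Cop Pool.Agent.H96.Cop Pool.Agent.H99.CE

namespace Pool.Agent.H21.CE

theorem y_facts {q : ℝ} (h0 : 0 ≤ q) (h1 : q ≤ 1 / 2) :
    1 + q ≤ 1 / (1 - q) ∧ 1 / (1 - q) ≤ 2 ∧ 1 / (1 - q) ≤ 1 + 2 * q ∧
      (1 / (1 - q)) ^ 2 ≤ 1 + 2 * q + 8 * q ^ 2 := by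
  have hq : 0 < 1 - q := by linarith
  refine ⟨?_, ?_, ?_, ?_⟩
  · rw [le_div_iff₀ hq]; nlinarith
  · rw [div_le_iff₀ hq]; linarith
  · rw [div_le_iff₀ hq]; nlinarith
  · rw [div_pow, one_pow, div_le_iff₀ (by positivity)]
    have h2 : 0 ≤ q ^ 2 * ((1 - 2 * q) * (5 - 4 * q)) :=
      mul_nonneg (sq_nonneg q) (mul_nonneg (by linarith) (by linarith))
    have h3 : (1 + 2 * q + 8 * q ^ 2) * (1 - q) ^ 2 =
      1 + q ^ 2 * ((1 - 2 * q) * (5 - 4 * q)) := by ring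
    rw [h3]; linarith

/-- the error of one step -/
noncomputable def er (ε h N N' R q : ℝ) : ℝ :=
  2 * h * max (N - N') 0 + 2 * ε * h * N + 2 * (1 + ε) * h * R + 8 * q ^ 2 + 6 * ε

theorem er_nonneg {ε h N N' R q : ℝ} (hε : 0 ≤ ε) (hh : 0 ≤ h) (hN : 0 ≤ N) (hR : 0 ≤ R) :
    0 ≤ er ε h N N' R q := by
  unfold er
  have := le_max_right (N - N') 0
  positivity

theorem dN_le {ε N N' R q T' A : ℝ} (hε : 0 ≤ ε) (hε1 : ε ≤ 1) (hN : 0 ≤ N)
    (hR : 0 ≤ R) (hNA : N ≤ A) (hq0 : 0 ≤ q) (hq1 : q ≤ 1 / 2)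
    (hN' : N' ≤ T') (hT' : T' ≤ (1 + ε) * (N + R) / (1 - q) + ε) :
    N' - N ≤ (2 * q + 2 * ε) * A + 4 * R + ε := by
  obtain ⟨y1, y2, y3, -⟩ := y_facts hq0 hq1
  obtain ⟨y, hy⟩ : ∃ y, y = 1 / (1 - q) := ⟨_, rfl⟩
  rw [← hy] at y1 y2 y3
  have e1 : (1 + ε) * (N + R) / (1 - q) = (1 + ε) * y * N + (1 + ε) * y * R := by
    rw [hy]; ring
  rw [e1] at hT'
  have a0 : ε * y ≤ ε * 2 := mul_le_mul_of_nonneg_left y2 hε
  have a1 : (1 + ε) * y * N ≤ (1 + (2 * q + 2 * ε)) * N :=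
    mul_le_mul_of_nonneg_right (by linarith) hN
  have a2 : (2 * q + 2 * ε) * N ≤ (2 * q + 2 * ε) * A :=
    mul_le_mul_of_nonneg_left hNA (by linarith)
  have a3 : (1 + ε) * y * R ≤ 4 * R := mul_le_mul_of_nonneg_right (by linarith) hR
  linarith

theorem er_le {ε h N N' R q T' A : ℝ} (hε : 0 ≤ ε) (hε1 : ε ≤ 1) (hh : 0 ≤ h) (hN : 0 ≤ N)
    (hR : 0 ≤ R) (hNA : N ≤ A) (hRA : R ≤ A) (hq : q = (1 + ε) * h * (N + R)) (hq1 : q ≤ 1 / 2)
    (hN' : N' ≤ T') (hT' : T' ≤ (1 + ε) * (N + R) / (1 - q) + ε) :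
    er ε h N N' R q ≤ 2 * h * (N - N') + 36 * (h * A) * q + 12 * h * R +
      (6 * (h * A) + 2 * h + 6) * ε := by
  have hA : 0 ≤ A := hN.trans hNA
  have hq0 : 0 ≤ q := by rw [hq]; positivity
  have h1 := dN_le hε hε1 hN hR hNA hq0 hq1 hN' hT'
  have h2 : max (N - N') 0 ≤ (N - N') + ((2 * q + 2 * ε) * A + 4 * R + ε) := by
    apply max_le
    · have : 0 ≤ (2 * q + 2 * ε) * A + 4 * R + ε := by positivity
      linarith
    · linarith
  have h3 : q ≤ 4 * (h * A) := by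
    rw [hq]
    have : (1 + ε) * (h * (N + R)) ≤ 2 * (h * (A + A)) :=
      mul_le_mul (by linarith) (mul_le_mul_of_nonneg_left (by linarith) hh) (by positivity)
        (by norm_num)
    linarith
  have h4 : q * q ≤ 4 * (h * A) * q := mul_le_mul_of_nonneg_right h3 hq0
  have h5 : 2 * h * max (N - N') 0 ≤ 2 * h * ((N - N') + ((2 * q + 2 * ε) * A + 4 * R + ε)) :=
    mul_le_mul_of_nonneg_left h2 (by positivity)
  have h6 : ε * h * N ≤ ε * h * A := mul_le_mul_of_nonneg_left hNA (by positivity)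
  have h7 : (1 + ε) * (h * R) ≤ 2 * (h * R) :=
    mul_le_mul_of_nonneg_right (by linarith) (by positivity)
  unfold er
  linarith

theorem pow_le_two {ε : ℝ} (hε : 0 ≤ ε) (j : ℕ) (h : j * ε ≤ 1 / 2) : (1 + ε) ^ j ≤ 2 := by
  have h1 : (1 + ε) ^ j ≤ Real.exp ε ^ j :=
    pow_le_pow_left₀ (by positivity) (by linarith [Real.add_one_le_exp ε]) j
  have h2 : Real.exp ε ^ j = Real.exp (j * ε) := by rw [← Real.exp_nat_mul]
  have h3 : Real.exp (j * ε) ≤ 1 / (1 - 1 / 2) :=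
    (Real.exp_le_exp.2 h).trans
      (Real.exp_bound_div_one_sub_of_interval (by norm_num) (by norm_num))
  rw [h2] at h1
  refine h1.trans (h3.trans (by norm_num))

theorem d_step {ε h N N' R q y G G' : ℝ} (hε : 0 ≤ ε) (hh : 0 ≤ h) (hN : 0 ≤ N) (hR : 0 ≤ R)
    (hq : q = (1 + ε) * h * (N + R)) (hq1 : q ≤ 1 / 2) (hy : y = 1 / (1 - q))
    (hG : G' + h * N' ≤ (1 + ε) * G * y ^ 2 + ε) (hd : 0 ≤ 1 - 2 * G) :
    y ^ 2 * (1 - 2 * G) - er ε h N N' R q ≤ 1 - 2 * G' := by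
  have hq0 : 0 ≤ q := by rw [hq]; positivity
  obtain ⟨y1, y2, y3, y4⟩ := y_facts hq0 hq1
  rw [← hy] at y1 y2 y3 y4
  have a2 : 2 * h * (N - N') ≤ 2 * h * max (N - N') 0 :=
    mul_le_mul_of_nonneg_left (le_max_left _ _) (by positivity)
  have a4 : y * y ≤ 2 * 2 := mul_le_mul y2 y2 (by linarith) (by norm_num)
  have a5 : ε * (y * y) ≤ ε * (2 * 2) := mul_le_mul_of_nonneg_left a4 hε
  have a6 : 0 ≤ ε * (y ^ 2 * (1 - 2 * G)) := by positivity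
  have a7 : 2 * q = 2 * h * N + 2 * ε * h * N + 2 * (1 + ε) * h * R := by rw [hq]; ring
  unfold er
  have a8 : (1 + ε) * G * y ^ 2 * 2 = y ^ 2 - y ^ 2 * (1 - 2 * G) + ε * (y * y) -
    ε * (y ^ 2 * (1 - 2 * G)) := by ring
  linarith

theorem sumS {δ0 ε h Nb C κ : ℝ} {j : ℕ} (N T R q e : ℕ → ℝ) (hδ0 : 0 < δ0) (hδ1 : δ0 ≤ 1 / 2)
    (hC : C = 8 / δ0) (hκ : κ = δ0 ^ 3 / 1000) (hε : 0 ≤ ε) (hε1 : ε ≤ 1) (hh : 0 ≤ h)
    (hhκ : h ≤ κ) (hNb : 0 ≤ Nb) (hhN : h * Nb ≤ κ) (hjκ : j * ε ≤ κ)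
    (hpos : ∀ j, 0 ≤ N j ∧ N j ≤ T j ∧ 0 ≤ R j) (hT0 : T 0 ≤ Nb)
    (hR : ∑ i ∈ Finset.range j, R i ≤ Nb + j * ε)
    (hb : ∀ i < j, T i ≤ C * Nb ∧ R i ≤ C * Nb)
    (hq : ∀ i, q i = (1 + ε) * h * (N i + R i)) (hq1 : ∀ i < j, q i ≤ 1 / 2)
    (he : ∀ i, e i = er ε h (N i) (N (i + 1)) (R i) (q i))
    (hrec : ∀ i < j, T (i + 1) ≤ (1 + ε) * (N i + R i) / (1 - q i) + ε)
    (hqs : ∑ i ∈ Finset.range j, q i ≤ 1 / δ0 + 1 / 2) :
    ∑ i ∈ Finset.range j, e i ≤ δ0 := by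
  have hκ0 : 0 < κ := by rw [hκ]; positivity
  have hC0 : 0 < C := by rw [hC]; positivity
  have hCκ : C * κ = 8 * δ0 ^ 2 / 1000 := by rw [hC, hκ]; field_simp
  have hd2 : δ0 ^ 2 ≤ 1 / 2 * δ0 := by
    have := mul_le_mul_of_nonneg_right hδ1 hδ0.le
    linarith
  have hd3 : δ0 ^ 3 ≤ 1 / 4 * δ0 := by
    have h1 : δ0 ^ 3 = δ0 * δ0 ^ 2 := by ring
    have h2 := mul_le_mul_of_nonneg_left hd2 hδ0.le
    have h3 : δ0 * (1 / 2 * δ0) = 1 / 2 * δ0 ^ 2 := by ring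
    linarith
  have hhA : h * (C * Nb) ≤ C * κ := by
    have : h * (C * Nb) = C * (h * Nb) := by ring
    rw [this]; exact mul_le_mul_of_nonneg_left hhN hC0.le
  have hhA0 : 0 ≤ h * (C * Nb) := by positivity
  have h1 : ∀ i ∈ Finset.range j, e i ≤ 2 * h * (N i - N (i + 1)) +
      36 * (h * (C * Nb)) * q i + 12 * h * R i +
      (6 * (h * (C * Nb)) + 2 * h + 6) * ε := by
    intro i hi
    have hi' := Finset.mem_range.1 hi
    obtain ⟨b1, b2⟩ := hb i hi'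
    obtain ⟨p1, p2, p3⟩ := hpos i
    rw [he i]
    exact er_le hε hε1 hh p1 p3 (p2.trans b1) b2 (hq i) (hq1 i hi')
      (hpos (i + 1)).2.1 (hrec i hi')
  have h3 : ∑ i ∈ Finset.range j, (2 * h * (N i - N (i + 1)) +
      36 * (h * (C * Nb)) * q i + 12 * h * R i +
      (6 * (h * (C * Nb)) + 2 * h + 6) * ε) = 2 * h * (N 0 - N j) +
      36 * (h * (C * Nb)) * ∑ i ∈ Finset.range j, q i + 12 * h * ∑ i ∈ Finset.range j, R i +
      (j : ℝ) * ((6 * (h * (C * Nb)) + 2 * h + 6) * ε) := by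
    rw [Finset.sum_add_distrib, Finset.sum_add_distrib, Finset.sum_add_distrib,
      ← Finset.mul_sum, ← Finset.mul_sum, ← Finset.mul_sum, Finset.sum_const,
      Finset.card_range, nsmul_eq_mul, Finset.sum_range_sub']
  refine (Finset.sum_le_sum h1).trans ?_
  rw [h3]
  have hN0 : N 0 - N j ≤ Nb := by
    have := (hpos j).1
    have := (hpos 0).2.1
    linarith
  have hq0 : ∀ i, 0 ≤ q i := fun i => by
    have := hpos i
    rw [hq i]
    have h1 : 0 ≤ N i + R i := by linarith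
    exact mul_nonneg (by positivity) h1
  have g1 : h * (N 0 - N j) ≤ h * Nb := mul_le_mul_of_nonneg_left hN0 hh
  have g2 : 36 * (h * (C * Nb)) * ∑ i ∈ Finset.range j, q i ≤
      36 * (C * κ) * (1 / δ0 + 1 / 2) :=
    mul_le_mul (by linarith) hqs (Finset.sum_nonneg fun i _ => hq0 i) (by positivity)
  have g3 : h * ∑ i ∈ Finset.range j, R i ≤ h * (Nb + κ) :=
    mul_le_mul_of_nonneg_left (hR.trans (by linarith)) hh
  have hκ1 : κ ≤ 1 := by rw [hκ]; linarith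
  have g3' : h * κ ≤ 1 * κ := mul_le_mul_of_nonneg_right (by linarith) hκ0.le
  have g4 : (j : ℝ) * ((6 * (h * (C * Nb)) + 2 * h + 6) * ε) ≤ 10 * κ := by
    have a1 : 6 * (h * (C * Nb)) + 2 * h + 6 ≤ 10 := by
      have : C * κ ≤ 1 / 400 := by rw [hCκ]; linarith
      linarith
    have a2 : (6 * (h * (C * Nb)) + 2 * h + 6) * (j * ε) ≤ 10 * κ :=
      mul_le_mul a1 hjκ (by positivity) (by norm_num)
    calc (j : ℝ) * ((6 * (h * (C * Nb)) + 2 * h + 6) * ε)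
        = (6 * (h * (C * Nb)) + 2 * h + 6) * (j * ε) := by ring
      _ ≤ 10 * κ := a2
  have g5 : 36 * (C * κ) * (1 / δ0 + 1 / 2) + 36 * κ ≤ δ0 := by
    have a2 : 36 * (C * κ) * (1 / δ0 + 1 / 2) = 288 / 1000 * δ0 + 144 / 1000 * δ0 ^ 2 := by
      rw [hCκ]; field_simp; ring
    rw [a2, hκ]
    linarith
  linarith

theorem Y_step {δ0 Y Y' y S e d d' : ℝ} (hδ0 : 0 < δ0) (hY' : Y' = Y * y) (hY1 : 1 ≤ Y')
    (he : 0 ≤ e) (hd : Y ^ 2 * (2 * δ0 - S) ≤ d) (hd' : y ^ 2 * d - e ≤ d')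
    (hS : S + e ≤ δ0) (hd1 : d' ≤ 1) :
    Y' ^ 2 * (2 * δ0 - (S + e)) ≤ d' ∧ Y' ≤ 1 / δ0 := by
  have a1 : 1 ≤ Y' ^ 2 := one_le_pow₀ hY1
  have a2 : e ≤ Y' ^ 2 * e := le_mul_of_one_le_left he a1
  have a4 : y ^ 2 * (Y ^ 2 * (2 * δ0 - S)) ≤ y ^ 2 * d := mul_le_mul_of_nonneg_left hd (sq_nonneg _)
  have a5 : Y' ^ 2 * (2 * δ0 - (S + e)) ≤ d' := by
    calc Y' ^ 2 * (2 * δ0 - (S + e))
        = y ^ 2 * (Y ^ 2 * (2 * δ0 - S)) - Y' ^ 2 * e := by rw [hY']; ring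
      _ ≤ y ^ 2 * d - e := by linarith
      _ ≤ _ := hd'
  refine ⟨a5, ?_⟩
  have a6 : Y' ^ 2 * δ0 ≤ Y' ^ 2 * (2 * δ0 - (S + e)) :=
    mul_le_mul_of_nonneg_left (by linarith) (sq_nonneg _)
  have a7 : Y' * 1 ≤ Y' * Y' := mul_le_mul_of_nonneg_left hY1 (by linarith)
  have a8 : Y' * δ0 ≤ Y' * Y' * δ0 := mul_le_mul_of_nonneg_right (by linarith) hδ0.le
  rw [le_div_iff₀ hδ0]
  have a9 : Y' * Y' * δ0 = Y' ^ 2 * δ0 := by ring
  linarith

theorem B_step {ε Nb Y y T T' N R R' Z jj : ℝ} (hε : 0 ≤ ε) (hy1 : 1 ≤ y) (hY1 : 1 ≤ Y)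
    (hZ : 1 ≤ Z) (hNT : N ≤ T)
    (hT' : T' ≤ (1 + ε) * (N + R) * y + ε) (hR' : R' ≤ ε)
    (hB : T + R ≤ Z * Y * (2 * Nb + 2 * jj * ε)) :
    T' + R' ≤ (Z * (1 + ε)) * (Y * y) * (2 * Nb + 2 * (jj + 1) * ε) := by
  have hy0 : 0 ≤ y := by linarith
  have a2 : (1 + ε) * (N + R) * y ≤ (1 + ε) * (T + R) * y :=
    mul_le_mul_of_nonneg_right (mul_le_mul_of_nonneg_left (by linarith) (by linarith)) hy0
  have a3 : (1 + ε) * (T + R) * y ≤ (1 + ε) * (Z * Y * (2 * Nb + 2 * jj * ε)) * y :=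
    mul_le_mul_of_nonneg_right (mul_le_mul_of_nonneg_left hB (by linarith)) hy0
  have b1 : 1 * 1 ≤ Z * (1 + ε) := mul_le_mul hZ (by linarith) (by norm_num) (by linarith)
  have b2 : 1 * 1 ≤ Y * y := mul_le_mul hY1 hy1 (by norm_num) (by linarith)
  have a4 : 1 * 1 ≤ (Z * (1 + ε)) * (Y * y) :=
    mul_le_mul (by linarith) (by linarith) (by norm_num) (by linarith)
  have a6 : 2 * ε ≤ (Z * (1 + ε)) * (Y * y) * (2 * ε) :=
    le_mul_of_one_le_left (by positivity) (by linarith)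
  have a5 : (Z * (1 + ε)) * (Y * y) * (2 * Nb + 2 * (jj + 1) * ε) =
      (1 + ε) * (Z * Y * (2 * Nb + 2 * jj * ε)) * y + (Z * (1 + ε)) * (Y * y) * (2 * ε) := by
    ring
  linarith

theorem C_step {δ0 ε Nb C κ Y B : ℝ} {j : ℕ} (hC : C = 8 / δ0)
    (hκ1 : κ ≤ 1 / 2) (hε : 0 ≤ ε) (hNb : 1 ≤ Nb) (hj : j * ε ≤ κ) (hY0 : 0 ≤ Y)
    (hY : Y ≤ 1 / δ0) (hB : B ≤ (1 + ε) ^ j * Y * (2 * Nb + 2 * j * ε)) : B ≤ C * Nb := by
  refine hB.trans ?_
  have b2 : (1 + ε) ^ j ≤ 2 := pow_le_two hε j (by linarith)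
  have b3 : (1 + ε) ^ j * Y ≤ 2 * (1 / δ0) := mul_le_mul b2 hY hY0 (by norm_num)
  have b4 : 2 * Nb + 2 * (j : ℝ) * ε ≤ 4 * Nb := by linarith
  have b6 : 0 ≤ 2 * (1 / δ0) := by linarith
  have b5 : (1 + ε) ^ j * Y * (2 * Nb + 2 * (j : ℝ) * ε) ≤ 2 * (1 / δ0) * (4 * Nb) :=
    mul_le_mul b3 b4 (by positivity) b6
  refine b5.trans (le_of_eq ?_)
  rw [hC]; ring

theorem pf_LYA : T_LYA := by
  intro δ0 hδ0 hδ1
  refine ⟨8 / δ0, δ0 ^ 3 / 1000, ?_, by positivity, ?_⟩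
  · rw [le_div_iff₀ hδ0]; linarith
  intro ε h Nb J hε hε3 hh hNb hhN hJε N T R G hpos hT0 hR0 hG0 hrec
  obtain ⟨C, hC⟩ : ∃ C, C = 8 / δ0 := ⟨_, rfl⟩
  obtain ⟨κ, hκ⟩ : ∃ κ, κ = δ0 ^ 3 / 1000 := ⟨_, rfl⟩
  rw [← hκ] at hhN hJε
  rw [← hC] at hrec ⊢
  have hC0 : 0 < C := by rw [hC]; positivity
  have hC1 : 16 ≤ C := by rw [hC, le_div_iff₀ hδ0]; linarith
  have hNb0 : 0 < Nb := by linarith
  have hκ0 : 0 < κ := by rw [hκ]; positivity
  have hd2 : δ0 ^ 2 ≤ 1 / 4 := by nlinarith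
  have hd3 : δ0 ^ 3 ≤ 1 / 8 := by
    have h1 : δ0 ^ 3 = δ0 * δ0 ^ 2 := by ring
    rw [h1]
    have := mul_le_mul hδ1 hd2 (sq_nonneg _) (by norm_num)
    linarith
  have hκ1 : κ ≤ 1 / 8000 := by rw [hκ]; linarith
  have hhκ : h ≤ κ := by
    have : h * 1 ≤ h * Nb := mul_le_mul_of_nonneg_left hNb hh.le
    linarith
  have hCκ : C * κ ≤ 1 / 400 := by
    have : C * κ = 8 * δ0 ^ 2 / 1000 := by rw [hC, hκ]; field_simp
    rw [this]; linarith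
  have hhA : h * (C * Nb) ≤ C * κ := by
    have : h * (C * Nb) = C * (h * Nb) := by ring
    rw [this]; exact mul_le_mul_of_nonneg_left hhN hC0.le
  obtain ⟨q, hq⟩ : ∃ q : ℕ → ℝ, ∀ i, q i = (1 + ε) * h * (N i + R i) := ⟨_, fun _ => rfl⟩
  obtain ⟨Y, hY0, hYs⟩ : ∃ Y : ℕ → ℝ, Y 0 = 1 ∧ ∀ j, Y (j + 1) = Y j * (1 / (1 - q j)) :=
    ⟨fun j => ∏ i ∈ Finset.range j, 1 / (1 - q i), by simp, fun j =>
      Finset.prod_range_succ _ _⟩
  obtain ⟨e, he⟩ : ∃ e : ℕ → ℝ, ∀ i, e i = er ε h (N i) (N (i + 1)) (R i) (q i) :=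
    ⟨_, fun _ => rfl⟩
  have hε1 : 0 < J → ε ≤ 1 ∧ J * ε ≤ κ := by
    intro hj
    have hJ1 : (1 : ℝ) ≤ J := by exact_mod_cast (by omega : 1 ≤ J)
    have h1 : J * ε ≤ κ := by
      have : (J : ℝ) * ε * 1 ≤ J * ε * Nb := mul_le_mul_of_nonneg_left hNb (by positivity)
      linarith
    have h2 : 1 * ε ≤ J * ε := mul_le_mul_of_nonneg_right hJ1 hε.le
    exact ⟨by linarith, h1⟩
  have hq0 : ∀ i, 0 ≤ q i := fun i => by
    have := hpos i
    rw [hq i]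
    have h1 : 0 ≤ N i + R i := by linarith
    exact mul_nonneg (by positivity) h1
  have hq1 : ∀ i, ε ≤ 1 → T i ≤ C * Nb → R i ≤ C * Nb → q i ≤ 1 / 2 := by
    intro i h1 h2 h3
    obtain ⟨p1, p2, p3, p4⟩ := hpos i
    have h5 : (1 + ε) * h * (N i + R i) ≤ 2 * h * (2 * (C * Nb)) :=
      mul_le_mul (mul_le_mul_of_nonneg_right (by linarith) hh.le) (by linarith) (by linarith)
        (by positivity)
    have h4 : 2 * h * (2 * (C * Nb)) = 4 * (h * (C * Nb)) := by ring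
    rw [hq i]
    linarith
  have hpos' : ∀ j, 0 ≤ N j ∧ N j ≤ T j ∧ 0 ≤ R j := fun j =>
    ⟨(hpos j).1, (hpos j).2.1, (hpos j).2.2.1⟩
  -- the sum of the errors
  have hS : ∀ j, 0 < j → j ≤ J → (∀ i < j, T i ≤ C * Nb ∧ R i ≤ C * Nb) →
      ∑ i ∈ Finset.range j, q i ≤ 1 / δ0 + 1 / 2 → ∑ i ∈ Finset.range j, e i ≤ δ0 := by
    intro j hj0 hj hb hqs
    obtain ⟨hε1, hJκ⟩ := hε1 (by omega)
    have hR : ∀ m, m ≤ j → ∑ i ∈ Finset.range m, R i ≤ Nb + m * ε := by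
      intro m
      induction m with
      | zero => intro _; simp; exact hNb0.le
      | succ m ih =>
        intro hm
        rw [Finset.sum_range_succ]
        push_cast
        rcases Nat.eq_zero_or_pos m with rfl | hm0
        · simp; linarith
        · obtain ⟨m', rfl⟩ : ∃ m', m = m' + 1 := ⟨m - 1, by omega⟩
          have h1 := (hrec m' (by omega) (hb m' (by omega)).1 (hb m' (by omega)).2).1
          have h2 := ih (by omega)
          linarith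
    have hjκ : j * ε ≤ κ := by
      have : (j : ℝ) ≤ J := by exact_mod_cast hj
      exact (mul_le_mul_of_nonneg_right this hε.le).trans hJκ
    exact sumS N T R q e hδ0 hδ1 hC hκ hε.le hε1 hh.le hhκ hNb0.le hhN hjκ hpos' hT0
      (hR j le_rfl) hb hq (fun i hi => hq1 i hε1 (hb i hi).1 (hb i hi).2) he
      (fun i hi => by
        have := (hrec i (by omega) (hb i hi).1 (hb i hi).2).2.1
        rw [← hq i] at this
        exact this) hqs
  -- the induction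
  have key : ∀ j, j ≤ J → (∀ i ≤ j, T i ≤ C * Nb ∧ R i ≤ C * Nb) ∧ 1 ≤ Y j ∧
      ∑ i ∈ Finset.range j, q i ≤ Y j - 1 ∧
      T j + R j ≤ (1 + ε) ^ j * Y j * (2 * Nb + 2 * j * ε) ∧
      Y j ^ 2 * (2 * δ0 - ∑ i ∈ Finset.range j, e i) ≤ 1 - 2 * G j ∧ Y j ≤ 1 / δ0 ∧
      ∑ i ∈ Finset.range j, e i ≤ δ0 := by
    intro j
    induction j with
    | zero =>
      intro _
      have hCN : 1 * Nb ≤ C * Nb := mul_le_mul_of_nonneg_right (by linarith) hNb0.le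
      refine ⟨?_, ?_, ?_, ?_, ?_, ?_, ?_⟩
      · intro i hi
        have : i = 0 := by omega
        subst this
        exact ⟨by linarith, by linarith⟩
      · rw [hY0]
      · rw [hY0]; simp
      · rw [hY0]; simp; linarith
      · rw [hY0]; simp; linarith
      · rw [hY0, le_div_iff₀ hδ0]; linarith
      · simp; exact hδ0.le
    | succ j ih =>
      intro hj
      obtain ⟨hb, hY1, hqs, hB, hd, hYd, hSj⟩ := ih (by omega)
      obtain ⟨hε1, hJκ⟩ := hε1 (by omega)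
      obtain ⟨bT, bR⟩ := hb j le_rfl
      obtain ⟨r1, r2, r3⟩ := hrec j (by omega) bT bR
      rw [← hq j] at r2 r3
      have hqj := hq1 j hε1 bT bR
      have hqj0 := hq0 j
      obtain ⟨y1, y2, y3, y4⟩ := y_facts hqj0 hqj
      have hYj := hYs j
      obtain ⟨y, hy⟩ : ∃ y, y = 1 / (1 - q j) := ⟨_, rfl⟩
      have e1 : (1 + ε) * (N j + R j) / (1 - q j) = (1 + ε) * (N j + R j) * y := by
        rw [hy]; ring
      have e2 : (1 + ε) * G j / (1 - q j) ^ 2 = (1 + ε) * G j * y ^ 2 := by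
        rw [hy, div_pow, one_pow]; ring
      rw [e1] at r2
      rw [e2] at r3
      rw [← hy] at y1 y2 y3 y4 hYj
      have hy1 : 1 ≤ y := by linarith
      have hQs : ∑ i ∈ Finset.range (j + 1), q i = ∑ i ∈ Finset.range j, q i + q j :=
        Finset.sum_range_succ _ _
      have hEs : ∑ i ∈ Finset.range (j + 1), e i = ∑ i ∈ Finset.range j, e i + e j :=
        Finset.sum_range_succ _ _
      have hSj1 := hS (j + 1) (by omega) hj (fun i hi => hb i (by omega))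
        (by rw [hQs]; linarith)
      have hYs1 : 1 ≤ Y (j + 1) := by
        rw [hYj]
        have := mul_le_mul hY1 hy1 (by norm_num) (by linarith)
        linarith
      obtain ⟨p1, p2, p3, p4⟩ := hpos j
      obtain ⟨s1, s2, s3, s4⟩ := hpos (j + 1)
      have e0 : 0 ≤ e j := by rw [he j]; exact er_nonneg hε.le hh.le p1 p3
      have hd0 : 0 ≤ 1 - 2 * G j := le_trans (mul_nonneg (sq_nonneg _) (by linarith)) hd
      have hd1 : y ^ 2 * (1 - 2 * G j) - e j ≤ 1 - 2 * G (j + 1) := by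
        rw [he j]
        exact d_step hε.le hh.le p1 p3 (hq j) hqj hy r3 hd0
      rw [hEs] at hSj1
      obtain ⟨hd2, hYd'⟩ := Y_step hδ0 hYj hYs1 e0 hd hd1 hSj1 (by linarith)
      have hB' : T (j + 1) + R (j + 1) ≤
          (1 + ε) ^ (j + 1) * Y (j + 1) * (2 * Nb + 2 * ((j + 1 : ℕ) : ℝ) * ε) := by
        rw [hYj, pow_succ]
        push_cast
        exact B_step hε.le hy1 hY1 (one_le_pow₀ (by linarith)) p2 r2 r1 hB
      have hC' : T (j + 1) + R (j + 1) ≤ C * Nb :=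
        C_step (κ := κ) hC (by linarith) hε.le hNb (by
          have : ((j + 1 : ℕ) : ℝ) ≤ J := by exact_mod_cast hj
          exact (mul_le_mul_of_nonneg_right this hε.le).trans hJκ) (by linarith) hYd' hB'
      refine ⟨?_, hYs1, ?_, hB', ?_, hYd', ?_⟩
      · intro i hi
        rcases Nat.lt_or_ge i (j + 1) with h1 | h1
        · exact hb i (by omega)
        · have : i = j + 1 := by omega
          subst this
          exact ⟨by linarith, by linarith⟩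
      · rw [hQs, hYj]
        have h1 : Y j * (1 + q j) ≤ Y j * y := mul_le_mul_of_nonneg_left y1 (by linarith)
        have h2 : 1 * q j ≤ Y j * q j := mul_le_mul_of_nonneg_right hY1 hqj0
        linarith
      · rw [hEs]; exact hd2
      · rw [hEs]; exact hSj1
  intro j hj
  exact (key j hj).1 j le_rfl

end Pool.Agent.H21.CE
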