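import Pool.Agent.H99.CE.Targets

/-!
# crx_modules, row PRL: the moments of the charges
-/

set_option autoImplicit false

open MeasureTheory ProbabilityTheory Filter Topology
open scoped ENNReal
open Pool.Agent.H95 Pool.Agent.H95.Cop Pool.Agent.H96.Cop Pool.Agent.H99.CE

namespace Pool.Agent.H21.CE

/-- the numbers, independent of the law -/
theorem num_bk {α δ r b m0 : ℝ} {lam : ℝ} {k : ℕ} (hα : 0 < α) (hδ : 0 < δ) (hδ1 : δ ≤ 1)
    (hlam : 0 < lam) (hr : 0 ≤ r) (hrα : r ≤ α / 2) (hm0 : 1 - m0 ≤ α)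
    (hm1 : m0 < 1) (hl2 : 16 * α * lam ^ 2 ≤ δ ^ 2)
    (hk : (k : ℝ) ≤ δ / 4 / (α * lam ^ 2) + 1) (hb : b ≤ max 0 (2 * lam ^ 2 * (1 + r - m0))) :
    b * k ≤ δ := by
  have h1 : max 0 (2 * lam ^ 2 * (1 + r - m0)) ≤ 2 * lam ^ 2 * (3 / 2 * α) := by
    apply max_le
    · positivity
    · exact mul_le_mul_of_nonneg_left (by linarith) (by positivity)
  have hb' : b ≤ 2 * lam ^ 2 * (3 / 2 * α) := hb.trans h1
  have h2 : b * k ≤ 2 * lam ^ 2 * (3 / 2 * α) * (δ / 4 / (α * lam ^ 2) + 1) :=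
    mul_le_mul hb' hk (Nat.cast_nonneg _) (by positivity)
  have h3 : 2 * lam ^ 2 * (3 / 2 * α) * (δ / 4 / (α * lam ^ 2) + 1) =
      3 / 4 * δ + 3 / 16 * (16 * α * lam ^ 2) := by
    have e1 : 2 * lam ^ 2 * (3 / 2 * α) * (δ / 4 / (α * lam ^ 2)) = 3 / 4 * δ := by
      field_simp
    rw [mul_add, e1]
    ring
  have h4 : δ ^ 2 ≤ 1 * δ := by
    have := mul_le_mul_of_nonneg_right hδ1 hδ.le
    linarith
  linarith

/-- `k` from below and from above -/
theorem num_k {α δ lam : ℝ} {k : ℕ} (hα : 0 < α) (hlam : 0 < lam)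
    (hl2 : 16 * α * lam ^ 2 ≤ δ ^ 2)
    (hk1 : δ / 4 / (α * lam ^ 2) ≤ k) (hk2 : (k : ℝ) ≤ δ / 4 / (α * lam ^ 2) + 1) :
    2 * (δ / 4 / α) ≤ 2 * lam ^ 2 * k ∧
      2 * lam ^ 2 * k ≤ 2 * (δ / 4 / α) + δ ^ 2 / (8 * α) := by
  have h1 : 2 * lam ^ 2 * (δ / 4 / (α * lam ^ 2)) = 2 * (δ / 4 / α) := by field_simp
  have h2 : 2 * lam ^ 2 ≤ δ ^ 2 / (8 * α) := by
    rw [le_div_iff₀ (by positivity)]; linarith
  constructor
  · rw [← h1]
    exact mul_le_mul_of_nonneg_left hk1 (by positivity)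
  · have h3 := mul_le_mul_of_nonneg_left hk2 (show 0 ≤ 2 * lam ^ 2 by positivity)
    rw [mul_add, h1, mul_one] at h3
    linarith

/-- the exponent -/
theorem num_E {α σ d δ r m0 θ s u i kq : ℝ} (hα : 0 < α)
    (hdσ : 0 < d - σ) (hδ : 0 < δ) (hδ1 : δ ≤ 1 / 20) (hr : 0 ≤ r)
    (hθ0 : 0 < θ) (hθ1 : θ < 1) (hm : m0 - θ = (d - σ) * α ^ 2) (hs0 : 0 < s) (hs1 : s ≤ 1)
    (hu1 : 2 * (δ / 4 / α) ≤ u) (hu2 : u ≤ 2 * (δ / 4 / α) + δ ^ 2 / (8 * α)) (hi : 0 < i)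
    (hsu : s * (u * i) = 1) (hkq : kq = (1 - δ) * (2 * (δ / 4) * α * θ * (d - σ)))
    (hrk : 4 * r ≤ α * kq) :
    (u * i) * ((θ + s) * ((θ + s) * (1 + r) - m0)) ≤ -(kq * i) + (1 + s) := by
  have hu0 : 0 < u := lt_of_lt_of_le (by positivity) hu1
  have hkq0 : 0 < kq := by
    rw [hkq]
    have : 0 < 1 - δ := by linarith
    positivity
  have hui : 0 < u * i := mul_pos hu0 hi
  have e1 : (u * i) * ((θ + s) * ((θ + s) * (1 + r) - m0)) =
      -((u * i) * (θ * (m0 - θ))) + (s * (u * i)) * (θ + s - (m0 - θ)) +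
        (u * i) * (r * (θ + s) ^ 2) := by ring
  rw [e1, hsu]
  have a1 : (θ + s) ^ 2 ≤ 4 := by
    have : (θ + s) * (θ + s) ≤ 2 * 2 := mul_le_mul (by linarith) (by linarith) (by linarith)
      (by norm_num)
    linarith
  have a2 : r * (θ + s) ^ 2 ≤ r * 4 := mul_le_mul_of_nonneg_left a1 hr
  have a3 : u * (r * (θ + s) ^ 2) ≤ δ * kq := by
    have b1 : u ≤ δ / α := by
      have : 2 * (δ / 4 / α) + δ ^ 2 / (8 * α) ≤ δ / α := by
        have c1 : 2 * (δ / 4 / α) + δ ^ 2 / (8 * α) = (δ / 2 + δ ^ 2 / 8) / α := by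
          field_simp
          ring
        rw [c1]
        apply div_le_div_of_nonneg_right _ hα.le
        have : δ ^ 2 ≤ 1 * δ := by
          have := mul_le_mul_of_nonneg_right (show δ ≤ 1 by linarith) hδ.le
          linarith
        linarith
      linarith
    have b2 : u * (r * (θ + s) ^ 2) ≤ δ / α * (α * kq) :=
      mul_le_mul b1 (by linarith) (by positivity) (by positivity)
    have b3 : δ / α * (α * kq) = δ * kq := by field_simp
    linarith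
  have a4 : (1 + δ) * kq ≤ u * (θ * (m0 - θ)) := by
    have b1 : 2 * (δ / 4 / α) * (θ * (m0 - θ)) ≤ u * (θ * (m0 - θ)) :=
      mul_le_mul_of_nonneg_right hu1 (by rw [hm]; positivity)
    have b2 : 2 * (δ / 4 / α) * (θ * (m0 - θ)) = 2 * (δ / 4) * α * θ * (d - σ) := by
      rw [hm]; field_simp
    have b3 : (1 + δ) * kq ≤ 2 * (δ / 4) * α * θ * (d - σ) := by
      rw [hkq]
      have c1 : (1 + δ) * ((1 - δ) * (2 * (δ / 4) * α * θ * (d - σ))) =
        (1 - δ ^ 2) * (2 * (δ / 4) * α * θ * (d - σ)) := by ring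
      rw [c1]
      have c2 : (1 - δ ^ 2) * (2 * (δ / 4) * α * θ * (d - σ)) ≤
          1 * (2 * (δ / 4) * α * θ * (d - σ)) :=
        mul_le_mul_of_nonneg_right (by linarith [sq_nonneg δ]) (by positivity)
      linarith
    linarith
  have a5 := mul_le_mul_of_nonneg_right a4 hi.le
  have a6 := mul_le_mul_of_nonneg_right a3 hi.le
  have a7 : 0 ≤ m0 - θ := by rw [hm]; positivity
  have a8 : (u * i) * (θ * (m0 - θ)) = u * (θ * (m0 - θ)) * i := by ring
  have a9 : (u * i) * (r * (θ + s) ^ 2) = u * (r * (θ + s) ^ 2) * i := by ring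
  rw [a8, a9]
  linarith

/-- the factor in front -/
theorem num_F {α δ s u : ℝ} (hα : 0 < α) (hδ : 0 < δ) (hδ1 : δ ≤ 1 / 20) (hs0 : 0 < s)
    (hs1 : s ≤ δ / 8) (hu2 : u ≤ 2 * (δ / 4 / α) + δ ^ 2 / (8 * α)) :
    u * Real.exp s ≤ (1 + δ) * (2 * (δ / 4 / α)) := by
  have h1 : Real.exp s ≤ 1 + δ / 4 := by
    have a1 := Real.exp_bound_div_one_sub_of_interval hs0.le (by linarith : s < 1)
    have a2 : 1 / (1 - s) ≤ 1 + 2 * s := by
      rw [div_le_iff₀ (by linarith)]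
      nlinarith
    linarith
  have h2 : 2 * (δ / 4 / α) + δ ^ 2 / (8 * α) = 2 * (δ / 4 / α) * (1 + δ / 4) := by
    field_simp
    ring
  rw [h2] at hu2
  have h3 : u * Real.exp s ≤ 2 * (δ / 4 / α) * (1 + δ / 4) * (1 + δ / 4) :=
    mul_le_mul hu2 h1 (Real.exp_pos _).le (by positivity)
  have h4 : (1 + δ / 4) * (1 + δ / 4) ≤ 1 + δ := by nlinarith
  have h5 := mul_le_mul_of_nonneg_left h4 (show 0 ≤ 2 * (δ / 4 / α) by positivity)
  calc u * Real.exp s ≤ 2 * (δ / 4 / α) * (1 + δ / 4) * (1 + δ / 4) := h3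
    _ = 2 * (δ / 4 / α) * ((1 + δ / 4) * (1 + δ / 4)) := by ring
    _ ≤ 2 * (δ / 4 / α) * (1 + δ) := h5
    _ = _ := by ring

/-- the pointwise inequality -/
theorem point (x : ℕ → ℝ) (n : ℕ) (θ s : ℝ) (hs : 0 < s) :
    ex 0 n x ^ θ * ENNReal.ofReal (H x 0 n) ≤
      ENNReal.ofReal (1 / (s * Real.exp 1)) * ex 0 n x ^ (θ + s) := by
  unfold ex
  rw [ENNReal.ofReal_rpow_of_pos (Real.exp_pos _), ENNReal.ofReal_rpow_of_pos (Real.exp_pos _),
    ← Real.exp_mul, ← Real.exp_mul, ← ENNReal.ofReal_mul (Real.exp_pos _).le,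
    ← ENNReal.ofReal_mul (by positivity)]
  apply ENNReal.ofReal_le_ofReal
  set h := H x 0 n
  have h1 : s * h ≤ Real.exp (s * h - 1) := by
    have := Real.add_one_le_exp (s * h - 1)
    linarith
  have h2 : h ≤ 1 / s * Real.exp (s * h - 1) := by
    have : h = 1 / s * (s * h) := by field_simp
    rw [this]
    have h3 := mul_le_mul_of_nonneg_left h1 (show 0 ≤ 1 / s by positivity)
    have h4 : 1 / s * (s * (1 / s * (s * h))) = 1 / s * (s * h) := by field_simp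
    have h5 : s * (1 / s * (s * h)) = s * h := by field_simp
    rw [h5]
    exact h3
  calc Real.exp (h * θ) * h ≤ Real.exp (h * θ) * (1 / s * Real.exp (s * h - 1)) :=
        mul_le_mul_of_nonneg_left h2 (Real.exp_pos _).le
    _ = 1 / (s * Real.exp 1) * Real.exp (h * (θ + s)) := by
        have e1 : Real.exp (h * (θ + s)) = Real.exp (h * θ) * Real.exp (s * h - 1) * Real.exp 1 := by
          rw [← Real.exp_add, ← Real.exp_add]; congr 1; ring
        rw [e1]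
        have : Real.exp 1 ≠ 0 := (Real.exp_pos 1).ne'
        field_simp

/-- the logarithm of the moment generating function at small arguments -/
theorem LM_small (μ : Measure ℝ) [IsProbabilityMeasure μ]
    (hexp : ∀ t : ℝ, Integrable (fun z => Real.exp (t * z)) μ) (hmean : ∫ z, z ∂μ = 0)
    (hvar : ∫ z, z ^ 2 ∂μ = 1) (r : ℝ) (hr : 0 < r) :
    ∃ τ > 0, ∀ t : ℝ, |t| < τ → LM μ t ≤ (1 + r) / 2 * t ^ 2 := by
  have h := (LM_tendsto μ hexp hmean hvar).eventually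
    (Iio_mem_nhds (show (1 / 2 : ℝ) < (1 + r) / 2 by linarith))
  rw [eventually_nhdsWithin_iff, Metric.eventually_nhds_iff] at h
  obtain ⟨τ, hτ, H⟩ := h
  refine ⟨τ, hτ, fun t ht => ?_⟩
  rcases eq_or_ne t 0 with rfl | h0
  · unfold LM
    simp
  · have h1 := H (y := t) (by rw [Real.dist_eq, sub_zero]; exact ht) h0
    have h2 : LM μ t / t ^ 2 < (1 + r) / 2 := h1
    rw [div_lt_iff₀ (by positivity)] at h2
    exact h2.le

theorem log_Mo (μ : Measure ℝ) [IsProbabilityMeasure μ] {r τ lam m0 h γ : ℝ}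
    (hLM : ∀ t : ℝ, |t| < τ → LM μ t ≤ (1 + r) / 2 * t ^ 2) (hlam : 0 < lam)
    (hlτ : 4 * lam < τ) (hh : m0 * lam ≤ h) (hγ0 : 0 < γ) (hγ : γ ≤ 2) :
    LM μ (-(2 * lam * γ)) - 2 * lam * γ * h ≤ 2 * lam ^ 2 * γ * (γ * (1 + r) - m0) := by
  have h1 : |(-(2 * lam * γ))| < τ := by
    rw [abs_neg, abs_of_pos (by positivity)]
    have : 2 * lam * γ ≤ 2 * lam * 2 := mul_le_mul_of_nonneg_left hγ (by positivity)
    linarith
  have h2 := hLM _ h1
  have h3 : 2 * lam * γ * (m0 * lam) ≤ 2 * lam * γ * h :=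
    mul_le_mul_of_nonneg_left hh (by positivity)
  have h4 : (1 + r) / 2 * (-(2 * lam * γ)) ^ 2 - 2 * lam * γ * (m0 * lam) =
    2 * lam ^ 2 * γ * (γ * (1 + r) - m0) := by ring
  linarith

theorem pf_PRL : T_PRL := by
  intro μ _ hexp hmean hvar α σ d δ hα hα1 hσ hσd hδ hδ1 hθ1 hαδ hm1
  obtain ⟨θ, hθ⟩ : ∃ θ, θ = th α σ := ⟨_, rfl⟩
  obtain ⟨m0, hm0⟩ : ∃ m0, m0 = 1 / (1 + α) + d * α ^ 2 := ⟨_, rfl⟩
  obtain ⟨kq, hkq⟩ : ∃ kq, kq = kp α σ d δ := ⟨_, rfl⟩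
  rw [← hθ] at hθ1
  rw [← hm0] at hm1 ⊢
  have hdσ : 0 < d - σ := by linarith
  have hm : m0 - θ = (d - σ) * α ^ 2 := by rw [hm0, hθ]; unfold th; ring
  have hd0 : 0 < d := by linarith
  have hθ0 : 0 < θ := by rw [hθ]; unfold th; positivity
  have hkq' : kq = (1 - δ) * (2 * (δ / 4) * α * θ * (d - σ)) := by
    rw [hkq, hθ]; rfl
  have hkq0 : 0 < kq := by
    rw [hkq']
    have : 0 < 1 - δ := by linarith
    positivity
  have hm0α : 1 - m0 ≤ α := by
    have h1 : 1 - α ≤ 1 / (1 + α) := by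
      rw [le_div_iff₀ (by linarith)]; nlinarith
    have h2 : 0 ≤ d * α ^ 2 := by positivity
    rw [hm0]; linarith
  obtain ⟨r, hr0, hr1, hr2, hr3⟩ : ∃ r : ℝ, 0 < r ∧ r ≤ α / 2 ∧ r ≤ δ * ((d - σ) * α ^ 2) ∧
      4 * r ≤ α * kq := by
    refine ⟨min (α / 2) (min (δ * ((d - σ) * α ^ 2)) (α * kq / 4)), ?_, ?_, ?_, ?_⟩
    · exact lt_min (by positivity) (lt_min (by positivity) (by positivity))
    · exact min_le_left _ _
    · exact (min_le_right _ _).trans (min_le_left _ _)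
    · have := (min_le_right (α / 2) (min (δ * ((d - σ) * α ^ 2)) (α * kq / 4))).trans
        (min_le_right _ _)
      linarith
  obtain ⟨τ, hτ, hLM⟩ := LM_small μ hexp hmean hvar r hr0
  have hev : Set.Ioo (0 : ℝ) (min (τ / 4) (δ / 2)) ∈ 𝓝[>] (0 : ℝ) :=
    Ioo_mem_nhdsGT (lt_min (by positivity) (by positivity))
  filter_upwards [hev] with lam hlam h hh
  obtain ⟨hlam0, hlam1⟩ := hlam
  have hlτ : 4 * lam < τ := by
    have := lt_of_lt_of_le hlam1 (min_le_left _ _)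
    linarith
  have hlδ : lam ≤ δ / 2 := (lt_of_lt_of_le hlam1 (min_le_right _ _)).le
  have hl2 : 16 * α * lam ^ 2 ≤ δ ^ 2 := by
    have h1 : lam ^ 2 ≤ (δ / 2) ^ 2 := pow_le_pow_left₀ hlam0.le hlδ 2
    have h2 : 16 * α * lam ^ 2 ≤ 4 * (δ / 2) ^ 2 :=
      mul_le_mul (by linarith) h1 (by positivity) (by norm_num)
    linarith
  obtain ⟨k, hkd⟩ : ∃ k, k = ⌈δ / 4 / (α * lam ^ 2)⌉₊ := ⟨_, rfl⟩
  have hx0 : 0 < δ / 4 / (α * lam ^ 2) := by positivity
  have hk1 : δ / 4 / (α * lam ^ 2) ≤ (k : ℝ) := by rw [hkd]; exact Nat.le_ceil _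
  have hk2 : (k : ℝ) ≤ δ / 4 / (α * lam ^ 2) + 1 := by
    rw [hkd]; exact (Nat.ceil_lt_add_one hx0.le).le
  obtain ⟨hu1, hu2⟩ := num_k hα hlam0 hl2 hk1 hk2
  have hlog : ∀ γ : ℝ, 0 < γ → γ ≤ 2 →
      LM μ (-(2 * lam * γ)) - 2 * lam * γ * h ≤ 2 * lam ^ 2 * γ * (γ * (1 + r) - m0) :=
    fun γ h0 h2 => log_Mo μ hLM hlam0 hlτ hh h0 h2
  have hMo := Mo_eq μ hexp lam h
  rw [← hkd]
  have hrθ : r * θ ≤ r := by
    have := mul_le_mul_of_nonneg_left hθ1.le hr0.le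
    linarith
  have hD0 : 0 < (d - σ) * α ^ 2 := by positivity
  have hrD : r * θ ≤ δ * ((d - σ) * α ^ 2) := hrθ.trans hr2
  have hδD : δ * ((d - σ) * α ^ 2) ≤ 1 * ((d - σ) * α ^ 2) :=
    mul_le_mul_of_nonneg_right (by linarith) hD0.le
  have hθm : θ * (1 + r) - m0 ≤ -((1 - δ) * ((d - σ) * α ^ 2)) := by
    have : θ * (1 + r) - m0 = r * θ - (m0 - θ) := by ring
    rw [this, hm]
    linarith
  refine ⟨max 0 (LM μ (-(2 * lam * 1)) - 2 * lam * 1 * h), ?_, ?_, ?_, ?_, ?_, ?_⟩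
  · exact le_max_left _ _
  · refine num_bk hα hδ (by linarith) hlam0 hr0.le hr1 hm0α hm1 hl2 hk2
      (max_le_max le_rfl ?_)
    have := hlog 1 one_pos (by norm_num)
    refine this.trans (le_of_eq ?_)
    ring
  · rw [hMo 1]
    exact ENNReal.ofReal_le_ofReal (Real.exp_le_exp.2 (le_max_right _ _))
  · rw [← hθ, hMo θ, ← ENNReal.ofReal_one]
    apply ENNReal.ofReal_le_ofReal
    rw [← Real.exp_zero]
    apply Real.exp_le_exp.2
    refine (hlog θ hθ0 (by linarith)).trans ?_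
    have h1 : 0 ≤ (1 - δ) * ((d - σ) * α ^ 2) := mul_nonneg (by linarith) hD0.le
    have h2 : 0 ≤ 2 * lam ^ 2 * θ := by positivity
    exact mul_nonpos_of_nonneg_of_nonpos h2 (by linarith)
  · rw [← hθ, ← hkq, hMo θ, ← ENNReal.ofReal_pow (Real.exp_pos _).le, ← Real.exp_nat_mul]
    apply ENNReal.ofReal_le_ofReal
    apply Real.exp_le_exp.2
    have h1 := mul_le_mul_of_nonneg_left (hlog θ hθ0 (by linarith)) (Nat.cast_nonneg (α := ℝ) k)
    have h2 : (k : ℝ) * (2 * lam ^ 2 * θ * (θ * (1 + r) - m0)) ≤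
        (k : ℝ) * (2 * lam ^ 2 * θ * (-((1 - δ) * ((d - σ) * α ^ 2)))) :=
      mul_le_mul_of_nonneg_left (mul_le_mul_of_nonneg_left hθm (by positivity))
        (Nat.cast_nonneg _)
    have h3 : (k : ℝ) * (2 * lam ^ 2 * θ * (-((1 - δ) * ((d - σ) * α ^ 2)))) =
        -((2 * lam ^ 2 * k) * (θ * ((1 - δ) * ((d - σ) * α ^ 2)))) := by ring
    have h4 : 2 * (δ / 4 / α) * (θ * ((1 - δ) * ((d - σ) * α ^ 2))) ≤
        (2 * lam ^ 2 * k) * (θ * ((1 - δ) * ((d - σ) * α ^ 2))) :=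
      mul_le_mul_of_nonneg_right hu1
        (mul_nonneg hθ0.le (mul_nonneg (by linarith) hD0.le))
    have h5 : 2 * (δ / 4 / α) * (θ * ((1 - δ) * ((d - σ) * α ^ 2))) = kq := by
      rw [hkq']
      field_simp
    linarith
  · intro i hi
    rw [← hθ, ← hkq]
    have hi0 : (0 : ℝ) < i := by exact_mod_cast hi
    have hi1 : (1 : ℝ) ≤ i := by exact_mod_cast hi
    obtain ⟨u, hu⟩ : ∃ u, u = 2 * lam ^ 2 * k := ⟨_, rfl⟩
    rw [← hu] at hu1 hu2
    have hu0 : 0 < u := lt_of_lt_of_le (by positivity) hu1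
    have hui : 0 < u * i := mul_pos hu0 hi0
    obtain ⟨s, hs⟩ : ∃ s, s = 1 / (u * i) := ⟨_, rfl⟩
    have hs0 : 0 < s := by rw [hs]; positivity
    have hsu : s * (u * i) = 1 := by rw [hs]; field_simp
    have hs1 : s ≤ δ / 8 := by
      rw [hs, div_le_iff₀ hui]
      have a1 : 2 * (δ / 4 / α) * 1 ≤ u * i := mul_le_mul hu1 hi1 (by norm_num) hu0.le
      have a2 : 1 ≤ δ / 8 * (2 * (δ / 4 / α) * 1) := by
        have : δ / 8 * (2 * (δ / 4 / α) * 1) = δ ^ 2 / (16 * α) := by field_simp; norm_num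
        rw [this, le_div_iff₀ (by positivity)]
        linarith
      exact a2.trans (mul_le_mul_of_nonneg_left a1 (by positivity))
    have hpt : ∫⁻ x, ex 0 (i * k) x ^ θ * ENNReal.ofReal (H x 0 (i * k))
          ∂(iid (chargeLaw μ lam h)) ≤
        ENNReal.ofReal (1 / (s * Real.exp 1)) * Mo (chargeLaw μ lam h) (θ + s) ^ (i * k) := by
      rw [← lint_ex_rpow (chargeLaw μ lam h) (θ + s) (by linarith) (i * k),
        ← lintegral_const_mul _ ((measurable_ex 0 (i * k)).pow_const (θ + s))]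
      exact lintegral_mono fun x => point x (i * k) θ s hs0
    refine hpt.trans ?_
    rw [hMo (θ + s), ← ENNReal.ofReal_pow (Real.exp_pos _).le, ← Real.exp_nat_mul,
      ← ENNReal.ofReal_mul (by positivity)]
    apply ENNReal.ofReal_le_ofReal
    have hE : ((i * k : ℕ) : ℝ) * (LM μ (-(2 * lam * (θ + s))) - 2 * lam * (θ + s) * h) ≤
        -(kq * i) + (1 + s) := by
      have a1 := mul_le_mul_of_nonneg_left (hlog (θ + s) (by linarith) (by linarith))
        (Nat.cast_nonneg (α := ℝ) (i * k))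
      refine a1.trans ?_
      have a2 : ((i * k : ℕ) : ℝ) * (2 * lam ^ 2 * (θ + s) * ((θ + s) * (1 + r) - m0)) =
          (u * i) * ((θ + s) * ((θ + s) * (1 + r) - m0)) := by
        rw [hu]; push_cast; ring
      rw [a2]
      exact num_E hα hdσ hδ hδ1 hr0.le hθ0 hθ1 hm hs0 (by linarith) hu1 hu2 hi0 hsu hkq' hr3
    have hF := num_F hα hδ hδ1 hs0 hs1 hu2
    have e1 : 1 / (s * Real.exp 1) = u * i / Real.exp 1 := by
      have : 1 / s = u * i := by rw [div_eq_iff hs0.ne', mul_comm]; exact hsu.symm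
      rw [← this]
      field_simp
    calc 1 / (s * Real.exp 1) * Real.exp (((i * k : ℕ) : ℝ) *
          (LM μ (-(2 * lam * (θ + s))) - 2 * lam * (θ + s) * h))
        ≤ u * i / Real.exp 1 * Real.exp (-(kq * i) + (1 + s)) := by
          rw [e1]
          exact mul_le_mul_of_nonneg_left (Real.exp_le_exp.2 hE) (by positivity)
      _ = (u * Real.exp s) * i * Real.exp (-(kq * i)) := by
          rw [Real.exp_add, Real.exp_add]
          have : Real.exp 1 ≠ 0 := (Real.exp_pos 1).ne'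
          field_simp
      _ ≤ ((1 + δ) * (2 * (δ / 4 / α))) * i * Real.exp (-(kq * i)) := by
          apply mul_le_mul_of_nonneg_right _ (Real.exp_pos _).le
          exact mul_le_mul_of_nonneg_right hF hi0.le
      _ = (1 + δ) * (2 * (δ / 4 / α) * i) * Real.exp (-(kq * i)) := by ring

end Pool.Agent.H21.CE
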